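import Pool.Agent.Helper71.SN.Goals

/-!
Packet CNT2 of MP_9b2a83_an: the number of positions sharing at least `j` digits with `t`.
-/

namespace Pool.Agent.Helper71.SN.PkCNT2

open Pool.Agent.Helper71.SN Pool.Agent.Helper39.Net

theorem thm : G_CNT2 := by
  intro b D j t hb hj ht
  have hm : 0 < b ^ (D - j) := Nat.pow_pos hb
  have hD : b ^ D = b ^ j * b ^ (D - j) := by
    rw [← pow_add]
    congr 1
    omega
  have hset : ((Finset.range (b ^ D)).filter fun t' => j ≤ agr b D t t') =
      Finset.Ico (t / b ^ (D - j) * b ^ (D - j))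
        (t / b ^ (D - j) * b ^ (D - j) + b ^ (D - j)) := by
    ext t'
    rw [Finset.mem_filter, Finset.mem_range, Finset.mem_Ico]
    have key : t / b ^ (D - j) = t' / b ^ (D - j) ↔
        t / b ^ (D - j) * b ^ (D - j) ≤ t' ∧
          t' < t / b ^ (D - j) * b ^ (D - j) + b ^ (D - j) := by
      rw [eq_comm, Nat.div_eq_iff hm]
      constructor
      · rintro ⟨h1, h2⟩
        exact ⟨h1, by omega⟩
      · rintro ⟨h1, h2⟩
        exact ⟨h1, by omega⟩
    constructor
    · rintro ⟨h1, h2⟩
      exact key.1 ((le_agr_iff hj ht h1).1 h2)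
    · intro h
      have h1 : t' < b ^ D := by
        have hq : t / b ^ (D - j) < b ^ j := by
          rw [Nat.div_lt_iff_lt_mul hm, ← hD]
          exact ht
        have h2 : t / b ^ (D - j) * b ^ (D - j) + b ^ (D - j) ≤ b ^ j * b ^ (D - j) := by
          have h3 : (t / b ^ (D - j) + 1) * b ^ (D - j) ≤ b ^ j * b ^ (D - j) :=
            Nat.mul_le_mul_right _ hq
          rw [Nat.add_mul, Nat.one_mul] at h3
          exact h3
        rw [hD]
        exact lt_of_lt_of_le h.2 h2
      exact ⟨h1, (le_agr_iff hj ht h1).2 (key.2 h)⟩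
  rw [hset, Nat.card_Ico]
  omega

end Pool.Agent.Helper71.SN.PkCNT2
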